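import Pool.Agent.W935.SK.Stm

/-!
The algorithm that computes the set of all zeros from a certificate.
-/

set_option autoImplicit false

namespace Pool.Agent.W578.SK

open Polynomial Finset Pool.Agent.H884R2.Sko Pool.Agent.H692R2.USS Pool.Agent.Helper446
  Pool.Agent.W935.SK

/-- the difference of `x` and `s * y` -/
def dif (x s y : ℕ × ℕ) : ℕ × ℕ := za x (zn (zm s y))

@[simp] theorem iv_dif (x s y : ℕ × ℕ) : iv (dif x s y) = iv x - iv s * iv y := by
  simp [dif]; ring

@[fun_prop] theorem cdif {α : Type*} [Primcodable α] {x s y : α → ℕ × ℕ} (hx : Computable x)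
    (hs : Computable s) (hy : Computable y) : Computable fun t => dif (x t) (s t) (y t) := by
  unfold dif; fun_prop

/-- the data of a witness: `(N, k, s, a', q, b, v, lam)` -/
abbrev Wit : Type := ℕ × ℕ × (ℕ × ℕ) × List (ℕ × ℕ) × ℕ × ℕ × ℕ × (ℕ × ℕ)

/-- unit vectors -/
def UnitC (d j : ℕ) (e : List (ℕ × ℕ)) : Prop :=
  e.length = d ∧ ∀ i < d, (i = j ∧ e.getD i (0, 0) = (1, 0)) ∨ (i ≠ j ∧ e.getD i (0, 0) = (0, 0))

/-- conditions on the zeros below `N` -/
def C1 (F A : List (ℕ × ℕ)) (L : List ℕ) (N : ℕ) : Prop :=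
  (∀ i < L.length, (run F A (L.getD i 0)).1 = (run F A (L.getD i 0)).2) ∧
  ∀ n < N, (run F A n).1 ≠ (run F A n).2 ∨ n ∈ L

/-- the shifted sequence -/
def C2 (F A : List (ℕ × ℕ)) (N k : ℕ) (s : ℕ × ℕ) (A' : List (ℕ × ℕ)) : Prop :=
  k ≠ 0 ∧ s.1 ≠ s.2 ∧ A'.length = A.length ∧
  ∀ i < A.length, (dif (run F A' (k + i)) s (run F A (N + i))).1 =
    (dif (run F A' (k + i)) s (run F A (N + i))).2

/-- periodicity modulo `q ^ v` -/
def C3 (F A : List (ℕ × ℕ)) (q b v : ℕ) (lam : ℕ × ℕ) : Prop :=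
  ∀ j < A.length, ∃ e : List (ℕ × ℕ), UnitC A.length j e ∧
    (dif (run F e b) lam (run F e 0)).1 % q ^ v = (dif (run F e b) lam (run F e 0)).2 % q ^ v

/-- the remaining conditions -/
def C4 (F A' : List (ℕ × ℕ)) (q b v : ℕ) (lam : ℕ × ℕ) : Prop :=
  q.Prime ∧ 3 ≤ q ∧ 1 ≤ b ∧ 1 ≤ v ∧ lam.1 % q ≠ lam.2 % q ∧ (run F A' 0).1 = (run F A' 0).2 ∧
  (∀ n < b, n = 0 ∨ (run F A' n).1 % q ≠ (run F A' n).2 % q) ∧
  (run F A' b).1 % q ^ (v + 1) ≠ (run F A' b).2 % q ^ (v + 1)

theorem re_C1 {α : Type} [Primcodable α] {F A : α → List (ℕ × ℕ)} {L : α → List ℕ} {N : α → ℕ}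
    (hF : Computable F) (hA : Computable A) (hL : Computable L) (hN : Computable N) :
    REPred fun x => C1 (F x) (A x) (L x) (N x) := by
  unfold C1
  refine RE.and ?_ ?_
  · refine RE.all_lt (p := fun (x : α) (i : ℕ) => (run (F x) (A x) ((L x).getD i 0)).1 =
      (run (F x) (A x) ((L x).getD i 0)).2) ?_ (by fun_prop)
    exact RE.eq (by fun_prop) (by fun_prop)
  · refine RE.all_lt (p := fun (x : α) (n : ℕ) => (run (F x) (A x) n).1 ≠
      (run (F x) (A x) n).2 ∨ n ∈ L x) ?_ hN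
    refine RE.or (RE.ne (by fun_prop) (by fun_prop)) ?_
    exact RE.mem_list (f := fun x : α × ℕ => x.2) (l := fun x => L x.1) (by fun_prop)
      (by fun_prop)

theorem re_C2 {α : Type} [Primcodable α] {F A A' : α → List (ℕ × ℕ)} {N k : α → ℕ}
    {s : α → ℕ × ℕ} (hF : Computable F) (hA : Computable A) (hN : Computable N)
    (hk : Computable k) (hs : Computable s) (hA' : Computable A') :
    REPred fun x => C2 (F x) (A x) (N x) (k x) (s x) (A' x) := by
  unfold C2
  refine RE.and (RE.ne (by fun_prop) (by fun_prop)) (RE.and (RE.ne (by fun_prop) (by fun_prop))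
    (RE.and (RE.eq (by fun_prop) (by fun_prop)) ?_))
  refine RE.all_lt (p := fun (x : α) (i : ℕ) =>
    (dif (run (F x) (A' x) (k x + i)) (s x) (run (F x) (A x) (N x + i))).1 =
    (dif (run (F x) (A' x) (k x + i)) (s x) (run (F x) (A x) (N x + i))).2) ?_ (by fun_prop)
  exact RE.eq (by fun_prop) (by fun_prop)

theorem re_Unit {α : Type} [Primcodable α] {d j : α → ℕ} {e : α → List (ℕ × ℕ)}
    (hd : Computable d) (hj : Computable j) (he : Computable e) :
    REPred fun x => UnitC (d x) (j x) (e x) := by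
  unfold UnitC
  refine RE.and (RE.eq (by fun_prop) (by fun_prop)) ?_
  refine RE.all_lt (p := fun (x : α) (i : ℕ) =>
    (i = j x ∧ (e x).getD i (0, 0) = (1, 0)) ∨ (i ≠ j x ∧ (e x).getD i (0, 0) = (0, 0))) ?_ hd
  exact RE.or (RE.and (RE.eq (by fun_prop) (by fun_prop)) (RE.eq (by fun_prop) (by fun_prop)))
    (RE.and (RE.ne (by fun_prop) (by fun_prop)) (RE.eq (by fun_prop) (by fun_prop)))

theorem re_C3 {α : Type} [Primcodable α] {F A : α → List (ℕ × ℕ)} {q b v : α → ℕ}
    {lam : α → ℕ × ℕ} (hF : Computable F) (hA : Computable A) (hq : Computable q)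
    (hb : Computable b) (hv : Computable v) (hl : Computable lam) :
    REPred fun x => C3 (F x) (A x) (q x) (b x) (v x) (lam x) := by
  unfold C3
  refine RE.all_lt (p := fun (x : α) (j : ℕ) => ∃ e : List (ℕ × ℕ), UnitC (A x).length j e ∧
    (dif (run (F x) e (b x)) (lam x) (run (F x) e 0)).1 % (q x) ^ (v x) =
    (dif (run (F x) e (b x)) (lam x) (run (F x) e 0)).2 % (q x) ^ (v x)) ?_ (by fun_prop)
  refine RE.ex (p := fun (x : α × ℕ) (e : List (ℕ × ℕ)) => UnitC (A x.1).length x.2 e ∧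
    (dif (run (F x.1) e (b x.1)) (lam x.1) (run (F x.1) e 0)).1 % (q x.1) ^ (v x.1) =
    (dif (run (F x.1) e (b x.1)) (lam x.1) (run (F x.1) e 0)).2 % (q x.1) ^ (v x.1)) ?_
  exact RE.and (re_Unit (by fun_prop) (by fun_prop) (by fun_prop))
    (RE.eq (by fun_prop) (by fun_prop))

theorem re_C4 {α : Type} [Primcodable α] {F A' : α → List (ℕ × ℕ)} {q b v : α → ℕ}
    {lam : α → ℕ × ℕ} (hF : Computable F) (hA : Computable A') (hq : Computable q)
    (hb : Computable b) (hv : Computable v) (hl : Computable lam) :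
    REPred fun x => C4 (F x) (A' x) (q x) (b x) (v x) (lam x) := by
  unfold C4
  refine RE.and (cp_prime hq).to_re (RE.and (RE.le (by fun_prop) hq)
    (RE.and (RE.le (by fun_prop) hb) (RE.and (RE.le (by fun_prop) hv)
    (RE.and (RE.ne (by fun_prop) (by fun_prop)) (RE.and (RE.eq (by fun_prop) (by fun_prop))
    (RE.and ?_ (RE.ne (by fun_prop) (by fun_prop))))))))
  refine RE.all_lt (p := fun (x : α) (n : ℕ) => n = 0 ∨
    (run (F x) (A' x) n).1 % q x ≠ (run (F x) (A' x) n).2 % q x) ?_ hb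
  exact RE.or (RE.eq (by fun_prop) (by fun_prop)) (RE.ne (by fun_prop) (by fun_prop))

/-- the search relation -/
def Rel (p : List (ℕ × ℕ) × List (ℕ × ℕ)) (L : List ℕ) : Prop :=
  ∃ w : Wit, C1 (Fq p.1) p.2 L w.1 ∧ C2 (Fq p.1) p.2 w.1 w.2.1 w.2.2.1 w.2.2.2.1 ∧
    C3 (Fq p.1) p.2 w.2.2.2.2.1 w.2.2.2.2.2.1 w.2.2.2.2.2.2.1 w.2.2.2.2.2.2.2 ∧
    C4 (Fq p.1) w.2.2.2.1 w.2.2.2.2.1 w.2.2.2.2.2.1 w.2.2.2.2.2.2.1 w.2.2.2.2.2.2.2

theorem re_Rel : REPred fun x : (List (ℕ × ℕ) × List (ℕ × ℕ)) × List ℕ => Rel x.1 x.2 := by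
  unfold Rel
  refine RE.ex (p := fun (x : (List (ℕ × ℕ) × List (ℕ × ℕ)) × List ℕ) (w : Wit) =>
    C1 (Fq x.1.1) x.1.2 x.2 w.1 ∧ C2 (Fq x.1.1) x.1.2 w.1 w.2.1 w.2.2.1 w.2.2.2.1 ∧
    C3 (Fq x.1.1) x.1.2 w.2.2.2.2.1 w.2.2.2.2.2.1 w.2.2.2.2.2.2.1 w.2.2.2.2.2.2.2 ∧
    C4 (Fq x.1.1) w.2.2.2.1 w.2.2.2.2.1 w.2.2.2.2.2.1 w.2.2.2.2.2.2.1 w.2.2.2.2.2.2.2) ?_
  exact RE.and (re_C1 (by fun_prop) (by fun_prop) (by fun_prop) (by fun_prop))
    (RE.and (re_C2 (by fun_prop) (by fun_prop) (by fun_prop) (by fun_prop) (by fun_prop)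
      (by fun_prop)) (RE.and (re_C3 (by fun_prop) (by fun_prop) (by fun_prop) (by fun_prop)
      (by fun_prop) (by fun_prop)) (re_C4 (by fun_prop) (by fun_prop) (by fun_prop) (by fun_prop)
      (by fun_prop) (by fun_prop))))

/-- the coefficients coded by a list -/
def cf (C : List (ℕ × ℕ)) (i : Fin C.length) : ℤ := iv (C.getD (C.length - 1 - i) (0, 0))

theorem run_seq {C A : List (ℕ × ℕ)} (h1 : 1 ≤ C.length) (hl : A.length = C.length) (n : ℕ) :
    iv (run (Fq C) A n) = seq (cf C) (fun i => iv (A.getD i (0, 0))) n := by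
  refine eq_seq (cf C) _ (fun n => iv (run (Fq C) A n)) (fun n => ?_) (fun i => ?_) n
  · have h := run_ann (G := Fq C) (a := A) (by omega) (by rw [Fq_length, hl])
    rw [ann_PG] at h
    have h2 := h n
    rw [Fq_length] at h2
    have h4 : ∑ i : Fin C.length, cf C i * iv (run (Fq C) A (n + i)) =
        ∑ i ∈ Finset.range C.length,
          iv (C.getD (C.length - 1 - i) (0, 0)) * iv (run (Fq C) A (n + i)) :=
      Fin.sum_univ_eq_sum_range (fun i =>
        iv (C.getD (C.length - 1 - i) (0, 0)) * iv (run (Fq C) A (n + i))) C.length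
    rw [h2, ← Finset.sum_neg_distrib, h4]
    refine Finset.sum_congr rfl fun i hi => ?_
    rw [Fq_getD (Finset.mem_range.1 hi), iv_zn]
    ring
  · have hi : (i : ℕ) < A.length := by rw [hl]; exact i.2
    show iv (run (Fq C) A i) = _
    rw [run_init hi]

theorem seq_lin {d : ℕ} (c e : Fin d → ℤ) (n : ℕ) :
    seq c e n = ∑ j, e j * seq c (Pi.single j 1) n := by
  symm
  refine eq_seq c e (fun n => ∑ j, e j * seq c (Pi.single j 1) n) (fun n => ?_) (fun i => ?_) n
  · simp only [seq_sol, Finset.mul_sum]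
    rw [Finset.sum_comm]
    refine Finset.sum_congr rfl fun i _ => Finset.sum_congr rfl fun j _ => ?_
    ring
  · simp only [seq_init]
    rw [Finset.sum_eq_single i]
    · simp
    · intro j _ hj
      rw [Pi.single_eq_of_ne hj.symm, mul_zero]
    · simp

theorem shift_eq {d : ℕ} (c : Fin d → ℤ) (a a' : Fin d → ℤ) (N k : ℕ) (s : ℤ)
    (h : ∀ i : Fin d, seq c a' (k + i) = s * seq c a (N + i)) (m : ℕ) :
    seq c a' (k + m) = s * seq c a (N + m) := by
  have h1 := eq_seq c (fun i : Fin d => seq c a' (k + i)) (fun m => seq c a' (k + m))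
    (fun n => by
      have := seq_sol c a' (k + n)
      simp only [add_assoc] at this ⊢
      exact this) (fun _ => rfl) m
  have h2 := eq_seq c (fun i : Fin d => seq c a' (k + i)) (fun m => s * seq c a (N + m))
    (fun n => by
      have := seq_sol c a (N + n)
      simp only [add_assoc] at this ⊢
      rw [this, Finset.mul_sum]
      refine Finset.sum_congr rfl fun i _ => ?_
      ring) (fun i => (h i).symm) m
  exact h1.trans h2.symm

theorem mod_eq_iff (z : ℕ × ℕ) (q : ℕ) : z.1 % q = z.2 % q ↔ (q : ℤ) ∣ iv z := by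
  have := mod_ne_iff z q
  tauto

theorem iv_eq_zero (z : ℕ × ℕ) : z.1 = z.2 ↔ iv z = 0 := by
  unfold iv
  omega

theorem sound (h : S_SOUND) {p : List (ℕ × ℕ) × List (ℕ × ℕ)} {u : ℕ → ℤ} (hu : IsLRS p u)
    {L : List ℕ} (hL : Rel p L) (n : ℕ) : u n = 0 ↔ n ∈ L := by
  obtain ⟨⟨N, k, s, A', q, b, v, lam⟩, ⟨h1, h2⟩, ⟨h3, h4, h5, h6⟩, h7, ⟨h8, h9, h10, h11, h12,
    h13, h14, h15⟩⟩ := hL
  simp only at h1 h2 h3 h4 h5 h6 h7 h8 h9 h10 h11 h12 h13 h14 h15
  have hrun := isLRS_run' hu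
  have hd1 := getLast_iff' p.1 hu.2.1
  have hl : p.2.length = p.1.length := hu.1.symm
  have hl' : A'.length = p.1.length := h5.trans hl
  set c := cf p.1 with hc
  have hseq : ∀ n, u n = seq c (fun i => iv (p.2.getD i (0, 0))) n := fun n => by
    rw [← hrun n, run_seq hd1 hl n]
  have hseq' : ∀ n, iv (run (Fq p.1) A' n) = seq c (fun i => iv (A'.getD i (0, 0))) n :=
    fun n => run_seq hd1 hl' n
  have hcert : Cert c (fun i => iv (A'.getD i (0, 0))) q b v (iv lam) := by
    refine ⟨h8, h9, h10, h11, (mod_ne_iff lam q).1 h12, fun e => ?_, ?_, fun n hn0 hn => ?_, ?_⟩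
    · have key : ∀ j : Fin p.1.length, (q : ℤ) ^ v ∣
          seq c (Pi.single j 1) b - iv lam * seq c (Pi.single j 1) 0 := by
        intro j
        obtain ⟨E, ⟨hE1, hE2⟩, hE3⟩ := h7 j (by rw [hl]; exact j.2)
        rw [mod_eq_iff, iv_dif, run_seq hd1 (hE1.trans hl), run_seq hd1 (hE1.trans hl)] at hE3
        have hE : (fun i : Fin p.1.length => iv (E.getD i (0, 0))) = Pi.single j 1 := by
          funext i
          rcases hE2 i (by rw [hl]; exact i.2) with ⟨h16, h17⟩ | ⟨h16, h17⟩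
          · have : i = j := Fin.ext h16
            subst this
            rw [h17, Pi.single_eq_same]
            rfl
          · rw [h17, Pi.single_eq_of_ne (fun h => h16 (congrArg Fin.val h))]
            rfl
        rw [hE] at hE3
        push_cast at hE3
        exact hE3
      rw [seq_lin c e b, seq_lin c e 0, Finset.mul_sum, ← Finset.sum_sub_distrib]
      refine Finset.dvd_sum fun j _ => ?_
      have : e j * seq c (Pi.single j 1) b - iv lam * (e j * seq c (Pi.single j 1) 0) =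
          e j * (seq c (Pi.single j 1) b - iv lam * seq c (Pi.single j 1) 0) := by ring
      rw [this]
      exact Dvd.dvd.mul_left (key j) _
    · rw [← hseq' 0]
      exact (iv_eq_zero _).1 h13
    · rcases h14 n hn with h | h
      · omega
      · rw [← hseq' n]
        exact (mod_ne_iff _ _).1 h
    · rw [← hseq' b]
      have := (mod_ne_iff _ _).1 h15
      push_cast at this
      exact this
  have hne := h p.1.length c _ q b v (iv lam) hd1 hcert
  have hsh : ∀ m, seq c (fun i => iv (A'.getD i (0, 0))) (k + m) = iv s * u (N + m) := by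
    intro m
    rw [hseq]
    refine shift_eq c _ _ N k (iv s) (fun i => ?_) m
    have h16 := (iv_eq_zero _).1 (h6 i (by rw [hl]; exact i.2))
    rw [iv_dif, hseq', run_seq hd1 hl] at h16
    linarith
  have hs : iv s ≠ 0 := fun h => h4 ((iv_eq_zero s).2 h)
  constructor
  · intro hn
    have hnN : n < N := by
      by_contra hcon
      push Not at hcon
      have h16 := hsh (n - N)
      rw [show N + (n - N) = n by omega, hn, mul_zero] at h16
      exact hne _ (by omega) h16
    rcases h2 n hnN with h16 | h16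
    · exact absurd ((iv_eq_zero _).2 (by rw [hrun, hn])) h16
    · exact h16
  · intro hn
    obtain ⟨i, hi, hin⟩ := List.getElem_of_mem hn
    have h16 := (iv_eq_zero _).1 (h1 i hi)
    rw [hrun] at h16
    rw [List.getD_eq_getElem?_getD, List.getElem?_eq_getElem hi, Option.getD_some, hin] at h16
    exact h16

theorem code_length {d : ℕ} (x : Fin d → ℤ) : (code x).length = d := by simp [code]

theorem complete {d : ℕ} (hd : 1 ≤ d) (c a : Fin d → ℤ) (hc : c ⟨d - 1, by omega⟩ ≠ 0)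
    (h : ∃ (N k : ℕ) (s : ℤ) (a' : Fin d → ℤ) (q b v : ℕ) (lam : ℤ), 1 ≤ k ∧ s ≠ 0 ∧
      (∀ i : Fin d, seq (fun i => c (Fin.rev i)) a' (k + i) =
        s * seq (fun i => c (Fin.rev i)) a (N + i)) ∧
      Cert (fun i => c (Fin.rev i)) a' q b v lam) : ∃ L, Rel (code c, code a) L := by
  obtain ⟨N, k, s, a', q, b, v, lam, h1, h2, h3, h4⟩ := h
  have hrun : ∀ (x : Fin d → ℤ) (n : ℕ), iv (run (Fq (code c)) (code x) n) =
      seq (fun i => c (Fin.rev i)) x n := by
    intro x n
    exact isLRS_run' (isLRS_code hd c x hc ((isSeq_iff c x _).2 fun _ => rfl)) n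
  refine ⟨(List.range N).filter (fun n => seq (fun i => c (Fin.rev i)) a n = 0),
    ⟨N, k, zc s, code a', q, b, v, zc lam⟩, ⟨?_, ?_⟩, ⟨?_, ?_, ?_, ?_⟩, ?_, ?_⟩
  · intro i hi
    rw [iv_eq_zero, hrun]
    have hmem := List.getElem_mem hi
    rw [List.mem_filter] at hmem
    rw [List.getD_eq_getElem?_getD, List.getElem?_eq_getElem hi, Option.getD_some]
    simpa using hmem.2
  · intro n hn
    by_cases h5 : seq (fun i => c (Fin.rev i)) a n = 0
    · right
      rw [List.mem_filter]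
      exact ⟨List.mem_range.2 hn, by simpa using h5⟩
    · left
      rw [Ne, iv_eq_zero, hrun]
      exact h5
  · show k ≠ 0
    omega
  · show (zc s).1 ≠ (zc s).2
    rw [Ne, iv_eq_zero, iv_zc]
    exact h2
  · show (code a').length = (code a).length
    rw [code_length, code_length]
  · intro i hi
    simp only [code_length] at hi
    show (dif (run (Fq (code c)) (code a') (k + i)) (zc s) (run (Fq (code c)) (code a) (N + i))).1 =
      (dif (run (Fq (code c)) (code a') (k + i)) (zc s) (run (Fq (code c)) (code a) (N + i))).2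
    rw [iv_eq_zero, iv_dif, hrun, hrun, iv_zc, h3 ⟨i, hi⟩, sub_self]
  · intro j hj
    simp only [code_length] at hj
    refine ⟨code (Pi.single ⟨j, hj⟩ 1), ⟨?_, fun i hi => ?_⟩, ?_⟩
    · show _ = (code a).length
      rw [code_length, code_length]
    · simp only [code_length] at hi
      rw [code_getD _ i hi]
      by_cases hij : i = j
      · left
        subst hij
        refine ⟨rfl, ?_⟩
        rw [Pi.single_eq_same]
        rfl
      · right
        refine ⟨hij, ?_⟩
        rw [Pi.single_eq_of_ne (fun h => hij (congrArg Fin.val h))]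
        rfl
    · show (dif (run (Fq (code c)) (code (Pi.single ⟨j, hj⟩ 1)) b) (zc lam)
        (run (Fq (code c)) (code (Pi.single ⟨j, hj⟩ 1)) 0)).1 % q ^ v =
        (dif (run (Fq (code c)) (code (Pi.single ⟨j, hj⟩ 1)) b) (zc lam)
        (run (Fq (code c)) (code (Pi.single ⟨j, hj⟩ 1)) 0)).2 % q ^ v
      rw [mod_eq_iff, iv_dif, hrun, hrun, iv_zc]
      push_cast
      exact h4.per _
  · refine ⟨h4.pr, h4.odd, h4.b1, h4.v1, ?_, ?_, fun n hn => ?_, ?_⟩
    · rw [mod_ne_iff, iv_zc]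
      exact h4.unit
    · rw [iv_eq_zero, hrun]
      exact h4.zero
    · rcases Nat.eq_zero_or_pos n with h5 | h5
      · exact Or.inl h5
      · right
        rw [mod_ne_iff, hrun]
        exact h4.cls n h5 hn
    · rw [mod_ne_iff, hrun]
      push_cast
      exact h4.top

theorem alg (h : S_SOUND) : S_ALG := by
  obtain ⟨A, hA, hdom, hs⟩ := RE.uniformize re_Rel
  refine ⟨A, hA, fun p u hu L hL n => sound h hu (hs p L hL) n, fun d hd c a hc h2 => ?_⟩
  rw [hdom]
  exact complete hd c a hc h2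

end Pool.Agent.W578.SK
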